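import Pool.Agent.Helper92.PW.St

/-!
# Project PW, module DYP: primitive solutions in a dyadic range, largest coordinate third
-/

set_option autoImplicit false

noncomputable section

namespace Pool.Agent.Helper91.PW

open Pool.Agent.Helper92.PW Finset

/-- small heights: the trivial bound -/
theorem dypSmall (N : ℕ) (T : Finset Pt)
    (h : ∀ p ∈ T, |(p.1 : ℝ)| ≤ N ∧ |(p.2.1 : ℝ)| ≤ N ∧ |(p.2.2 : ℝ)| ≤ N) :
    (T.card : ℝ) ≤ ((2 * N + 1 : ℕ) : ℝ) ^ 3 := by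
  have h1 : T ⊆ (Finset.Icc (-(N : ℤ)) N) ×ˢ ((Finset.Icc (-(N : ℤ)) N) ×ˢ (Finset.Icc (-(N : ℤ)) N)) := by
    intro p hp
    obtain ⟨a, b, c⟩ := h p hp
    have key : ∀ x : ℤ, |(x : ℝ)| ≤ N → x ∈ Finset.Icc (-(N : ℤ)) N := by
      intro x hx
      rw [Finset.mem_Icc]
      obtain ⟨l, r⟩ := abs_le.mp hx
      constructor
      · exact_mod_cast l
      · exact_mod_cast r
    simp only [Finset.mem_product]
    exact ⟨key _ a, key _ b, key _ c⟩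
  have h2 := Finset.card_le_card h1
  rw [Finset.card_product, Finset.card_product] at h2
  have h3 : (Finset.Icc (-(N : ℤ)) N).card = 2 * N + 1 := by
    rw [Int.card_Icc]; omega
  rw [h3] at h2
  have h4 : T.card ≤ (2 * N + 1) ^ 3 := by
    calc T.card ≤ (2 * N + 1) * ((2 * N + 1) * (2 * N + 1)) := h2
      _ = (2 * N + 1) ^ 3 := by ring
  exact_mod_cast h4

/-- the numerical part -/
theorem dypNum (B : ℝ) (hB : (4 : ℝ) ^ 200 ≤ B) :
    2 ≤ ⌈B ^ (199 / 200 : ℝ)⌉₊ ∧ ⌈B ^ (199 / 200 : ℝ)⌉₊ ≤ ⌊B / 2⌋₊ ∧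
    (⌈B ^ (199 / 200 : ℝ)⌉₊ : ℝ) ^ 2 / (⌊B / 2⌋₊ : ℝ) * Real.log (⌈B ^ (199 / 200 : ℝ)⌉₊ : ℝ) ≤
      640000 * B ^ th := by
  have h4 : (4 : ℝ) ^ 200 ≥ 16 := by norm_num
  have hB0 : 0 < B := by linarith
  have hB1 : 1 ≤ B := by linarith
  -- B^(1/200) ≥ 4
  have hr : 4 ≤ B ^ (1 / 200 : ℝ) := by
    have h1 : ((4 : ℝ) ^ 200) ^ (1 / 200 : ℝ) ≤ B ^ (1 / 200 : ℝ) :=
      Real.rpow_le_rpow (by positivity) hB (by norm_num)
    have h2 : ((4 : ℝ) ^ 200) ^ (1 / 200 : ℝ) = 4 := by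
      rw [← Real.rpow_natCast, ← Real.rpow_mul (by norm_num)]
      norm_num
    linarith
  obtain ⟨W, hW⟩ : ∃ W, W = B ^ (199 / 200 : ℝ) := ⟨_, rfl⟩
  have hWB : W * B ^ (1 / 200 : ℝ) = B := by
    rw [hW, ← Real.rpow_add hB0]; norm_num
  have hW0 : 0 < W := by rw [hW]; positivity
  have hW4 : W * 4 ≤ B := by
    rw [← hWB]; exact mul_le_mul_of_nonneg_left hr hW0.le
  have hWr : B ^ (1 / 200 : ℝ) ≤ W := by
    rw [hW]; exact Real.rpow_le_rpow_of_exponent_le hB1 (by norm_num)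
  have hW1 : 4 ≤ W := hr.trans hWr
  rw [← hW]
  obtain ⟨Z, hZ⟩ : ∃ Z, Z = ⌈W⌉₊ := ⟨_, rfl⟩
  obtain ⟨M, hM⟩ : ∃ M, M = ⌊B / 2⌋₊ := ⟨_, rfl⟩
  rw [← hZ, ← hM]
  have z1 : W ≤ Z := by rw [hZ]; exact Nat.le_ceil W
  have z2 : (Z : ℝ) < W + 1 := by rw [hZ]; exact Nat.ceil_lt_add_one hW0.le
  have m1 : (M : ℝ) ≤ B / 2 := by rw [hM]; exact Nat.floor_le (by positivity)
  have m2 : B / 2 < M + 1 := by rw [hM]; exact Nat.lt_floor_add_one _
  have hZ2 : 2 ≤ Z := by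
    have : (2 : ℝ) ≤ Z := by linarith
    exact_mod_cast this
  have hZM : Z ≤ M := by
    have : (Z : ℝ) < M + 1 := by linarith
    have : Z < M + 1 := by exact_mod_cast this
    omega
  refine ⟨hZ2, hZM, ?_⟩
  have hM0 : (0 : ℝ) < M := by
    have : 0 < M := by omega
    exact_mod_cast this
  have hM4 : B / 4 ≤ M := by linarith
  have hZ0 : (0 : ℝ) < Z := by linarith
  have hZW : (Z : ℝ) ≤ 2 * W := by linarith
  have q1 : (Z : ℝ) ^ 2 / M ≤ (2 * W) ^ 2 / (B / 4) := by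
    apply div_le_div₀ (by positivity) (pow_le_pow_left₀ hZ0.le hZW 2) (by positivity) hM4
  have q2 : (2 * W) ^ 2 / (B / 4) = 16 * B ^ (99 / 100 : ℝ) := by
    have : W ^ 2 = B ^ (99 / 100 : ℝ) * B := by
      rw [hW, ← Real.rpow_natCast, ← Real.rpow_mul hB0.le]
      nth_rewrite 3 [← Real.rpow_one B]
      rw [← Real.rpow_add hB0]
      norm_num
    rw [mul_pow, this]
    field_simp
    norm_num
  have q3 : Real.log (Z : ℝ) ≤ Real.log B := by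
    apply Real.log_le_log hZ0
    have : (Z : ℝ) ≤ M := by exact_mod_cast hZM
    linarith
  have q4 : Real.log B ≤ B ^ (1 / 40000 : ℝ) / (1 / 40000) := Real.log_le_rpow_div hB0.le (by norm_num)
  have q5 : 0 ≤ Real.log (Z : ℝ) := Real.log_nonneg (by linarith)
  have q6 : B ^ th = B ^ (99 / 100 : ℝ) * B ^ (1 / 40000 : ℝ) := by
    rw [← Real.rpow_add hB0]
    unfold th
    norm_num
  rw [q6]
  calc (Z : ℝ) ^ 2 / M * Real.log (Z : ℝ) ≤ (16 * B ^ (99 / 100 : ℝ)) * (B ^ (1 / 40000 : ℝ) / (1 / 40000)) := by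
        apply mul_le_mul (q1.trans q2.le) (q3.trans q4) q5 (by positivity)
    _ = 640000 * (B ^ (99 / 100 : ℝ) * B ^ (1 / 40000 : ℝ)) := by ring

/-- skew points of a dyadic range -/
theorem dypSkew {k : ℤ} {C : ℝ} (hC0 : 0 < C)
    (hC : ∀ (Z M : ℕ) (T : Finset (ℤ × ℤ × ℤ)), 2 ≤ Z → Z ≤ M →
      (∀ t ∈ T, t.1 ^ 3 + t.2.1 ^ 3 + t.2.2 ^ 3 = k ∧ |t.2.2| ≤ Z ∧ (M : ℤ) ≤ max |t.1| |t.2.1|) →
      (T.card : ℝ) ≤ C * (Z : ℝ) ^ 2 / M * Real.log Z) (B : ℝ) (hB : (4 : ℝ) ^ 200 ≤ B)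
    (T : Finset Pt)
    (hT : ∀ t ∈ T, Fm t = k ∧ |(t.2.2 : ℝ)| < B ^ (199 / 200 : ℝ) ∧ B / 2 < |(t.2.1 : ℝ)|) :
    (T.card : ℝ) ≤ 640000 * C * B ^ th := by
  obtain ⟨h1, h2, h3⟩ := dypNum B hB
  have hB0 : 0 < B := by
    have : (4 : ℝ) ^ 200 ≥ 16 := by norm_num
    linarith
  have h4 := hC _ _ T h1 h2 (by
    intro t ht
    obtain ⟨a, b, c⟩ := hT t ht
    refine ⟨a, ?_, ?_⟩
    · have : |(t.2.2 : ℝ)| ≤ (⌈B ^ (199 / 200 : ℝ)⌉₊ : ℝ) := b.le.trans (Nat.le_ceil _)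
      exact_mod_cast this
    · refine le_max_of_le_right ?_
      have : (⌊B / 2⌋₊ : ℝ) ≤ |(t.2.1 : ℝ)| := (Nat.floor_le (by positivity)).trans c.le
      exact_mod_cast this)
  refine h4.trans ?_
  have h5 := mul_le_mul_of_nonneg_left h3 hC0.le
  calc C * (⌈B ^ (199 / 200 : ℝ)⌉₊ : ℝ) ^ 2 / (⌊B / 2⌋₊ : ℝ) * Real.log (⌈B ^ (199 / 200 : ℝ)⌉₊ : ℝ)
      = C * ((⌈B ^ (199 / 200 : ℝ)⌉₊ : ℝ) ^ 2 / (⌊B / 2⌋₊ : ℝ) * Real.log (⌈B ^ (199 / 200 : ℝ)⌉₊ : ℝ)) := by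
        ring
    _ ≤ C * (640000 * B ^ th) := h5
    _ = 640000 * C * B ^ th := by ring

theorem hDYP (hGEN : StGEN) (hSK : StSK) : StDYP := by
  intro k hk
  obtain ⟨C1, B0, hC1, hB0, hG⟩ := hGEN k hk
  obtain ⟨C2, hC2, hS⟩ := hSK k hk
  obtain ⟨B1, hB1⟩ : ∃ B1 : ℝ, B1 = max B0 ((4 : ℝ) ^ 200) := ⟨_, rfl⟩
  obtain ⟨N, hN⟩ : ∃ N : ℕ, N = ⌈B1⌉₊ := ⟨_, rfl⟩
  obtain ⟨K, hK⟩ : ∃ K : ℝ, K = ((2 * N + 1 : ℕ) : ℝ) ^ 3 := ⟨_, rfl⟩
  have hK0 : 0 ≤ K := by rw [hK]; positivity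
  refine ⟨K + (C1 + 1280000 * C2), by positivity, ?_⟩
  intro B hB T hT
  have hBth : 1 ≤ B ^ th := Real.one_le_rpow hB (by unfold th; positivity)
  have hBpos : 0 < B := by linarith
  by_cases hs : B ≤ B1
  · -- small
    have h1 : (T.card : ℝ) ≤ K := by
      rw [hK]
      apply dypSmall N T
      intro p hp
      obtain ⟨_, _, hx, hy, _, hz⟩ := hT p hp
      have : B1 ≤ N := by rw [hN]; exact Nat.le_ceil _
      exact ⟨by linarith, by linarith, by linarith⟩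
    have h2 : (K + (C1 + 1280000 * C2)) * 1 ≤ (K + (C1 + 1280000 * C2)) * B ^ th :=
      mul_le_mul_of_nonneg_left hBth (by positivity)
    have h3 : 0 < C1 + 1280000 * C2 := by positivity
    linarith
  · push Not at hs
    have hb0 : B0 ≤ B := by
      have := le_max_left B0 ((4 : ℝ) ^ 200)
      rw [← hB1] at this; linarith
    have hb4 : (4 : ℝ) ^ 200 ≤ B := by
      have := le_max_right B0 ((4 : ℝ) ^ 200)
      rw [← hB1] at this; linarith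
    obtain ⟨W, hW⟩ : ∃ W, W = B ^ (199 / 200 : ℝ) := ⟨_, rfl⟩
    have hβB : B ^ (-(1 / 200) : ℝ) * B = W := by
      rw [hW]
      nth_rewrite 2 [← Real.rpow_one B]
      rw [← Real.rpow_add hBpos]; norm_num
    classical
    obtain ⟨TY, hTY⟩ : ∃ TY, TY = T.filter (fun p => |(p.2.1 : ℝ)| < W) := ⟨_, rfl⟩
    obtain ⟨TX, hTX⟩ : ∃ TX, TX = T.filter (fun p => |(p.1 : ℝ)| < W) := ⟨_, rfl⟩
    obtain ⟨TG, hTG⟩ : ∃ TG, TG = T.filter (fun p => W ≤ |(p.2.1 : ℝ)| ∧ W ≤ |(p.1 : ℝ)|) := ⟨_, rfl⟩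
    have hcov : T ⊆ TG ∪ (TY ∪ TX) := by
      intro p hp
      simp only [hTY, hTX, hTG, Finset.mem_union, Finset.mem_filter]
      rcases lt_or_ge |(p.2.1 : ℝ)| W with h | h
      · exact Or.inr (Or.inl ⟨hp, h⟩)
      · rcases lt_or_ge |(p.1 : ℝ)| W with h' | h'
        · exact Or.inr (Or.inr ⟨hp, h'⟩)
        · exact Or.inl ⟨hp, h, h'⟩
    have hG1 : (TG.card : ℝ) ≤ C1 * B ^ th := by
      apply hG B hb0
      intro p hp
      rw [hTG, Finset.mem_filter] at hp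
      obtain ⟨hpT, hpy, hpx⟩ := hp
      obtain ⟨hF, hP, hx, hy, hz1, hz2⟩ := hT p hpT
      exact ⟨hF, hP, hx, hy, hz1, hz2, by rw [hβB]; exact hpx, by rw [hβB]; exact hpy⟩
    have hY1 : (TY.card : ℝ) ≤ 640000 * C2 * B ^ th := by
      have hinj : Function.Injective (fun p : Pt => ((p.1, p.2.2, p.2.1) : Pt)) := by
        intro p q h
        simp only [Prod.mk.injEq] at h
        obtain ⟨h1, h2, h3⟩ := h
        exact Prod.ext h1 (Prod.ext h3 h2)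
      rw [← Finset.card_image_of_injective TY hinj]
      apply dypSkew hC2 hS B hb4
      intro t ht
      rw [Finset.mem_image] at ht
      obtain ⟨p, hp, rfl⟩ := ht
      rw [hTY, Finset.mem_filter] at hp
      obtain ⟨hpT, hpy⟩ := hp
      obtain ⟨hF, hP, hx, hy, hz1, hz2⟩ := hT p hpT
      refine ⟨?_, ?_, ?_⟩
      · rw [← hF]; simp only [Fm]; ring
      · rw [← hW]; exact hpy
      · exact hz1
    have hX1 : (TX.card : ℝ) ≤ 640000 * C2 * B ^ th := by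
      have hinj : Function.Injective (fun p : Pt => ((p.2.1, p.2.2, p.1) : Pt)) := by
        intro p q h
        simp only [Prod.mk.injEq] at h
        obtain ⟨h1, h2, h3⟩ := h
        exact Prod.ext h3 (Prod.ext h1 h2)
      rw [← Finset.card_image_of_injective TX hinj]
      apply dypSkew hC2 hS B hb4
      intro t ht
      rw [Finset.mem_image] at ht
      obtain ⟨p, hp, rfl⟩ := ht
      rw [hTX, Finset.mem_filter] at hp
      obtain ⟨hpT, hpx⟩ := hp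
      obtain ⟨hF, hP, hx, hy, hz1, hz2⟩ := hT p hpT
      refine ⟨?_, ?_, ?_⟩
      · rw [← hF]; simp only [Fm]; ring
      · rw [← hW]; exact hpx
      · exact hz1
    have hc1 := Finset.card_le_card hcov
    have hc2 := Finset.card_union_le TG (TY ∪ TX)
    have hc3 := Finset.card_union_le TY TX
    have hc4 : (T.card : ℝ) ≤ TG.card + (TY.card + TX.card) := by
      have : T.card ≤ TG.card + (TY.card + TX.card) := by omega
      exact_mod_cast this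
    have hfin : (K + (C1 + 1280000 * C2)) * B ^ th = K * B ^ th + (C1 * B ^ th +
        (640000 * C2 * B ^ th + 640000 * C2 * B ^ th)) := by ring
    have hKB : 0 ≤ K * B ^ th := by positivity
    rw [hfin]
    linarith

end Pool.Agent.Helper91.PW
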