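import Pool.Agent.Helper92.PW.St

/-!
# Project PW, module LOD: third order expansion of the Fermat cubic
-/

set_option autoImplicit false

noncomputable section

namespace Pool.Agent.Helper91.PW

open Pool.Agent.Helper92.PW

/-- product of two bounds -/
theorem mulB {a b A B : ℝ} (ha : |a| ≤ A) (hb : |b| ≤ B) : |a * b| ≤ A * B := by
  rw [abs_mul]
  exact mul_le_mul ha hb (abs_nonneg _) (le_trans (abs_nonneg _) ha)

theorem powB {b : ℝ} (hb : 1 ≤ b) {m n : ℕ} (h : m ≤ n) : b ^ m ≤ b ^ n := pow_le_pow_right₀ hb h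

/-- from a bound of `3 y² r` to a bound of `r` -/
theorem divB {y b r C : ℝ} (hy : 1 ≤ y ^ 2 * b ^ 2) (h : |3 * y ^ 2 * r| ≤ C) :
    |r| ≤ C * b ^ 2 / 3 := by
  have h1 : |3 * y ^ 2 * r| = 3 * y ^ 2 * |r| := by
    rw [abs_mul, abs_of_nonneg (by positivity)]
  have h2 : 0 ≤ |r| := abs_nonneg r
  have h3 : 3 * |r| ≤ 3 * (y ^ 2 * b ^ 2) * |r| := by nlinarith
  have h4 : 3 * (y ^ 2 * b ^ 2) * |r| = b ^ 2 * (3 * y ^ 2 * |r|) := by ring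
  have h5 : b ^ 2 * (3 * y ^ 2 * |r|) ≤ b ^ 2 * C :=
    mul_le_mul_of_nonneg_left (h1 ▸ h) (by positivity)
  linarith

/-- the final computation, with `b = 1/β` -/
theorem core (lam δ x y b a1 a2 a3 c t u e : ℝ) (hb : 1 ≤ b) (hl : 0 < lam) (hl1 : lam ≤ 1)
    (hδ : δ ≤ lam ^ 3) (hy : 1 ≤ y ^ 2 * b ^ 2) (hy1 : |y| ≤ 1) (ht : |t| ≤ lam) (he : |e| ≤ δ)
    (ha1 : |a1| ≤ b ^ 2) (e1 : y ^ 2 * a1 = -x ^ 2) (e2 : y ^ 2 * a2 = -(x + y * a1 ^ 2))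
    (e3 : 3 * y ^ 2 * a3 = -(1 + a1 ^ 3 + 6 * y * a1 * a2)) (ec : c * a2 = a3)
    (hc : |c| ≤ 10 * b ^ 11) (hu : |u| ≤ 2 * lam * b ^ 2) (hv : |u - a1 * t| ≤ 8 * lam ^ 2 * b ^ 6)
    (hE : 3 * x ^ 2 * t + 3 * x * t ^ 2 + t ^ 3 + 3 * y ^ 2 * u + 3 * y * u ^ 2 + u ^ 3 = e) :
    |(u - a1 * t) - a2 * t ^ 2 - c * (t * (u - a1 * t))| ≤ (δ + 419 * lam ^ 4) * b ^ 21 := by
  obtain ⟨v, hvd⟩ : ∃ v, v = u - a1 * t := ⟨_, rfl⟩
  rw [← hvd] at hv ⊢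
  have huv : u = a1 * t + v := by rw [hvd]; ring
  obtain ⟨ρ, hρd⟩ : ∃ ρ, ρ = v - a2 * t ^ 2 := ⟨_, rfl⟩
  have hvρ : v = a2 * t ^ 2 + ρ := by rw [hρd]; ring
  have hb0 : 0 < b := by linarith
  have hδ0 : 0 ≤ δ := le_trans (abs_nonneg _) he
  have hl3 : (0 : ℝ) < lam ^ 3 := by positivity
  have hl4 : (0 : ℝ) < lam ^ 4 := by positivity
  -- powers
  have p1 : ∀ m : ℕ, 1 ≤ b ^ m := fun m => one_le_pow₀ hb
  -- a1 * t
  have hat : |a1 * t| ≤ b ^ 2 * lam := mulB ha1 ht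
  -- first expansion
  have x1 : 3 * y ^ 2 * ρ = e - t ^ 3 - u ^ 3 - 3 * (y * (v * (u + a1 * t))) := by
    have : 3 * y ^ 2 * ρ = 3 * y ^ 2 * u - 3 * (y ^ 2 * a1) * t - 3 * (y ^ 2 * a2) * t ^ 2 := by
      rw [hρd, hvd]; ring
    rw [this, e1, e2, ← hE, hvd]; ring
  have hsum : |u + a1 * t| ≤ 3 * lam * b ^ 2 := by
    refine le_trans (abs_add_le _ _) ?_
    linarith
  have h1 : |y * (v * (u + a1 * t))| ≤ 1 * ((8 * lam ^ 2 * b ^ 6) * (3 * lam * b ^ 2)) :=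
    mulB hy1 (mulB hv hsum)
  have ht3 : |t ^ 3| ≤ lam ^ 3 := by
    rw [abs_pow]; exact pow_le_pow_left₀ (abs_nonneg _) ht 3
  have hu3 : |u ^ 3| ≤ (2 * lam * b ^ 2) ^ 3 := by
    rw [abs_pow]; exact pow_le_pow_left₀ (abs_nonneg _) hu 3
  have h2 : |3 * y ^ 2 * ρ| ≤ 82 * (lam ^ 3 * b ^ 8) := by
    rw [x1]
    have g1 : |e - t ^ 3 - u ^ 3 - 3 * (y * (v * (u + a1 * t)))| ≤
        |e| + |t ^ 3| + |u ^ 3| + 3 * |y * (v * (u + a1 * t))| := by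
      have q1 := abs_sub (e - t ^ 3 - u ^ 3) (3 * (y * (v * (u + a1 * t))))
      have q2 := abs_sub (e - t ^ 3) (u ^ 3)
      have q3 := abs_sub e (t ^ 3)
      rw [abs_mul, abs_of_pos (by norm_num : (0 : ℝ) < 3)] at q1
      linarith
    have g2 : lam ^ 3 ≤ lam ^ 3 * b ^ 8 := le_mul_of_one_le_right hl3.le (p1 8)
    have g3 : lam ^ 3 * b ^ 6 ≤ lam ^ 3 * b ^ 8 :=
      mul_le_mul_of_nonneg_left (powB hb (by norm_num)) hl3.le
    have g4 : (2 * lam * b ^ 2) ^ 3 = 8 * (lam ^ 3 * b ^ 6) := by ring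
    have g5 : 1 * ((8 * lam ^ 2 * b ^ 6) * (3 * lam * b ^ 2)) = 24 * (lam ^ 3 * b ^ 8) := by ring
    rw [g4] at hu3
    rw [g5] at h1
    linarith
  have hρ : |ρ| ≤ 28 * lam ^ 3 * b ^ 10 := by
    have g := divB hy h2
    have g1 : 82 * (lam ^ 3 * b ^ 8) * b ^ 2 / 3 = (82 / 3) * (lam ^ 3 * b ^ 10) := by ring
    have g2 : 0 ≤ lam ^ 3 * b ^ 10 := by positivity
    rw [g1] at g
    nlinarith
  -- second expansion
  have x2 : 3 * y ^ 2 * (ρ - a3 * t ^ 3) =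
      e - v * (u * u + u * (a1 * t) + (a1 * t) * (a1 * t)) - 3 * (y * (v * v + 2 * ((a1 * t) * ρ))) := by
    have g : 3 * y ^ 2 * (ρ - a3 * t ^ 3) = 3 * y ^ 2 * ρ - (3 * y ^ 2 * a3) * t ^ 3 := by ring
    rw [g, x1, e3]
    have g2 : v * v + 2 * ((a1 * t) * ρ) = v * (u + a1 * t) - 2 * a1 * a2 * t ^ 3 := by
      rw [hρd, huv]; ring
    rw [g2]
    have g3 : v * (u * u + u * (a1 * t) + (a1 * t) * (a1 * t)) = u ^ 3 - a1 ^ 3 * t ^ 3 := by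
      rw [hvd]; ring
    rw [g3]; ring
  have hA : |u * u + u * (a1 * t) + (a1 * t) * (a1 * t)| ≤ 7 * (lam ^ 2 * b ^ 4) := by
    have q1 := mulB hu hu
    have q2 := mulB hu hat
    have q3 := mulB hat hat
    have q4 := abs_add_le (u * u + u * (a1 * t)) ((a1 * t) * (a1 * t))
    have q5 := abs_add_le (u * u) (u * (a1 * t))
    have q6 : 2 * lam * b ^ 2 * (2 * lam * b ^ 2) + 2 * lam * b ^ 2 * (b ^ 2 * lam) +
        b ^ 2 * lam * (b ^ 2 * lam) = 7 * (lam ^ 2 * b ^ 4) := by ring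
    linarith
  have hB : |v * v + 2 * ((a1 * t) * ρ)| ≤ 120 * (lam ^ 4 * b ^ 12) := by
    have q1 := mulB hv hv
    have q2 := mulB hat hρ
    have q3 := abs_add_le (v * v) (2 * ((a1 * t) * ρ))
    rw [abs_mul 2, abs_of_pos (by norm_num : (0 : ℝ) < 2)] at q3
    have q4 : 8 * lam ^ 2 * b ^ 6 * (8 * lam ^ 2 * b ^ 6) + 2 * (b ^ 2 * lam * (28 * lam ^ 3 * b ^ 10)) =
        120 * (lam ^ 4 * b ^ 12) := by ring
    linarith
  have h3 : |3 * y ^ 2 * (ρ - a3 * t ^ 3)| ≤ δ + 416 * (lam ^ 4 * b ^ 12) := by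
    rw [x2]
    have q1 := mulB hv hA
    have q2 := mulB hy1 hB
    have q3 := abs_sub (e - v * (u * u + u * (a1 * t) + (a1 * t) * (a1 * t)))
      (3 * (y * (v * v + 2 * ((a1 * t) * ρ))))
    have q4 := abs_sub e (v * (u * u + u * (a1 * t) + (a1 * t) * (a1 * t)))
    rw [abs_mul 3, abs_of_pos (by norm_num : (0 : ℝ) < 3)] at q3
    have q5 : 8 * lam ^ 2 * b ^ 6 * (7 * (lam ^ 2 * b ^ 4)) = 56 * (lam ^ 4 * b ^ 10) := by ring
    have q6 : lam ^ 4 * b ^ 10 ≤ lam ^ 4 * b ^ 12 :=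
      mul_le_mul_of_nonneg_left (powB hb (by norm_num)) hl4.le
    rw [q5] at q1
    linarith
  have h4 : |ρ - a3 * t ^ 3| ≤ δ * b ^ 21 + 139 * (lam ^ 4 * b ^ 21) := by
    have g := divB hy h3
    have g1 : (δ + 416 * (lam ^ 4 * b ^ 12)) * b ^ 2 / 3 =
        (1 / 3) * (δ * b ^ 2) + (416 / 3) * (lam ^ 4 * b ^ 14) := by ring
    have g2 : δ * b ^ 2 ≤ δ * b ^ 21 := mul_le_mul_of_nonneg_left (powB hb (by norm_num)) hδ0
    have g3 : lam ^ 4 * b ^ 14 ≤ lam ^ 4 * b ^ 21 :=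
      mul_le_mul_of_nonneg_left (powB hb (by norm_num)) hl4.le
    have g4 : 0 ≤ δ * b ^ 21 := by positivity
    have g5 : 0 ≤ lam ^ 4 * b ^ 21 := by positivity
    rw [g1] at g
    linarith
  have h5 : |c * (t * ρ)| ≤ 280 * (lam ^ 4 * b ^ 21) := by
    have q1 := mulB hc (mulB ht hρ)
    have q2 : 10 * b ^ 11 * (lam * (28 * lam ^ 3 * b ^ 10)) = 280 * (lam ^ 4 * b ^ 21) := by ring
    linarith
  have x3 : v - a2 * t ^ 2 - c * (t * v) = (ρ - a3 * t ^ 3) - c * (t * ρ) := by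
    rw [← hρd]
    have : c * (t * v) = a3 * t ^ 3 + c * (t * ρ) := by
      rw [← ec, hρd]
      ring
    rw [this]; ring
  rw [x3]
  have q := abs_sub (ρ - a3 * t ^ 3) (c * (t * ρ))
  have q1 : (δ + 419 * lam ^ 4) * b ^ 21 = δ * b ^ 21 + 419 * (lam ^ 4 * b ^ 21) := by ring
  linarith

theorem hLOD (hLOC : StLOC) : StLOD := by
  intro β lam δ x y e0 hβ hβ1 hl hl1 hδ0 hδ hx hx' hy hy' hxy he0
  have hy0 : y ≠ 0 := by intro h; rw [h] at hy'; linarith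
  have hx0 : x ≠ 0 := by intro h; rw [h] at hx'; linarith
  obtain ⟨b, hbd⟩ : ∃ b, b = 1 / β := ⟨_, rfl⟩
  have hbβ : b * β = 1 := by rw [hbd]; field_simp
  have hb0 : 0 < b := by rw [hbd]; positivity
  have hb : 1 ≤ b := by
    rw [hbd, le_div_iff₀ hβ]; linarith
  have hdiv : ∀ (X : ℝ) (n : ℕ), X / β ^ n = X * b ^ n := by
    intro X n
    rw [hbd, div_pow, one_pow]; ring
  have hyb : 1 ≤ y ^ 2 * b ^ 2 := by
    have h1 : β ≤ |y| := by rw [abs_of_neg (by linarith)]; linarith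
    have h2 : 1 ≤ |y| * b := by
      have := mul_le_mul_of_nonneg_right h1 hb0.le
      rw [mul_comm b β] at hbβ
      linarith
    have h3 : y ^ 2 * b ^ 2 = (|y| * b) ^ 2 := by rw [mul_pow, sq_abs]
    rw [h3]; exact one_le_pow₀ h2
  have hy1 : |y| ≤ 1 := by rw [abs_of_neg (by linarith)]; linarith
  have hx1 : |x| ≤ 1 := by rw [abs_of_neg (by linarith)]; linarith
  obtain ⟨a1, ha1d⟩ : ∃ a1, a1 = -(x ^ 2 / y ^ 2) := ⟨_, rfl⟩
  obtain ⟨a2, ha2d⟩ : ∃ a2, a2 = -(x + y * a1 ^ 2) / y ^ 2 := ⟨_, rfl⟩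
  obtain ⟨a3, ha3d⟩ : ∃ a3, a3 = -(1 + a1 ^ 3 + 6 * y * a1 * a2) / (3 * y ^ 2) := ⟨_, rfl⟩
  obtain ⟨c, hcd⟩ : ∃ c, c = a3 / a2 := ⟨_, rfl⟩
  have e1 : y ^ 2 * a1 = -x ^ 2 := by rw [ha1d]; field_simp
  have e2 : y ^ 2 * a2 = -(x + y * a1 ^ 2) := by rw [ha2d]; field_simp
  have e3 : 3 * y ^ 2 * a3 = -(1 + a1 ^ 3 + 6 * y * a1 * a2) := by rw [ha3d]; field_simp
  have hx2 : x ^ 2 ≤ 1 := by rw [← sq_abs]; exact pow_le_one₀ (abs_nonneg _) hx1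
  -- |a1|
  have ha1 : |a1| ≤ b ^ 2 := by
    have h1 : |3 * y ^ 2 * a1| ≤ 3 := by
      have : 3 * y ^ 2 * a1 = -(3 * x ^ 2) := by rw [mul_assoc, e1]; ring
      rw [this, abs_neg, abs_of_nonneg (by positivity)]; linarith
    have := divB hyb h1
    linarith
  -- a2 y^5
  have e4 : a2 * y ^ 5 = x * (1 - e0) := by
    have h1 : a2 * y ^ 5 = (y ^ 2 * a2) * y ^ 3 := by ring
    have h2 : y ^ 4 * a1 ^ 2 = x ^ 4 := by
      have : y ^ 4 * a1 ^ 2 = (y ^ 2 * a1) ^ 2 := by ring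
      rw [this, e1]; ring
    rw [h1, e2]
    have h3 : -(x + y * a1 ^ 2) * y ^ 3 = -(x * y ^ 3 + y ^ 4 * a1 ^ 2) := by ring
    rw [h3, h2]
    have h4 : y ^ 3 = -1 + e0 - x ^ 3 := by linarith
    rw [h4]; ring
  have he0' := abs_le.mp he0
  -- lower bound of a2
  have ha2l : β / 2 ≤ |a2| := by
    have h1 : |a2| * |y| ^ 5 = |x| * |1 - e0| := by
      rw [← abs_pow, ← abs_mul, e4, abs_mul]
    have h2 : β ≤ |x| := by rw [abs_of_neg (by linarith)]; linarith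
    have h3 : 1 / 2 ≤ |1 - e0| := by rw [abs_of_nonneg (by linarith)]; linarith
    have h4 : |y| ^ 5 ≤ 1 := pow_le_one₀ (abs_nonneg _) hy1
    have h5 : |a2| * |y| ^ 5 ≤ |a2| * 1 := mul_le_mul_of_nonneg_left h4 (abs_nonneg _)
    have h6 : β * (1 / 2) ≤ |x| * |1 - e0| := mul_le_mul h2 h3 (by norm_num) (abs_nonneg _)
    linarith
  have ha20 : a2 ≠ 0 := by
    intro h; rw [h, abs_zero] at ha2l; linarith
  have ec : c * a2 = a3 := by rw [hcd]; field_simp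
  -- upper bound of a2
  have ha1sq : |a1 ^ 2| ≤ b ^ 4 := by
    have := mulB ha1 ha1
    rw [← pow_two, ← pow_add] at this
    exact this
  have ha2u : |a2| ≤ 2 * b ^ 6 := by
    have h1 : |3 * y ^ 2 * a2| ≤ 6 * b ^ 4 := by
      have : 3 * y ^ 2 * a2 = -(3 * (x + y * a1 ^ 2)) := by rw [mul_assoc, e2]; ring
      rw [this, abs_neg, abs_mul, abs_of_pos (by norm_num : (0 : ℝ) < 3)]
      have q1 := abs_add_le x (y * a1 ^ 2)
      have q2 := mulB hy1 ha1sq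
      have q3 : 1 ≤ b ^ 4 := one_le_pow₀ hb
      linarith
    have := divB hyb h1
    have h2 : 6 * b ^ 4 * b ^ 2 / 3 = 2 * b ^ 6 := by ring
    linarith
  -- upper bound of a3
  have ha3u : |a3| ≤ 5 * b ^ 10 := by
    have h1 : |3 * y ^ 2 * a3| ≤ 15 * b ^ 8 := by
      rw [e3, abs_neg]
      have q1 := abs_add_le (1 + a1 ^ 3) (6 * y * a1 * a2)
      have q2 := abs_add_le 1 (a1 ^ 3)
      have q3 : |a1 ^ 3| ≤ b ^ 6 := by
        rw [abs_pow]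
        have := pow_le_pow_left₀ (abs_nonneg _) ha1 3
        rw [← pow_mul] at this
        exact this
      have q4 : |6 * y * a1 * a2| ≤ 6 * 1 * b ^ 2 * (2 * b ^ 6) := by
        have q6 : |(6 : ℝ)| ≤ 6 := by rw [abs_of_pos (by norm_num)]
        exact mulB (mulB (mulB q6 hy1) ha1) ha2u
      have q5 : (6 : ℝ) * 1 * b ^ 2 * (2 * b ^ 6) = 12 * b ^ 8 := by ring
      have q6 : 1 ≤ b ^ 8 := one_le_pow₀ hb
      have q7 : b ^ 6 ≤ b ^ 8 := powB hb (by norm_num)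
      rw [abs_one] at q2
      linarith
    have := divB hyb h1
    have h2 : 15 * b ^ 8 * b ^ 2 / 3 = 5 * b ^ 10 := by ring
    linarith
  -- bound of c
  have hc : |c| ≤ 10 * b ^ 11 := by
    have h1 : |c| * |a2| = |a3| := by rw [← abs_mul, ec]
    have h2 : |c| * (β / 2) ≤ |a3| := by
      rw [← h1]; exact mul_le_mul_of_nonneg_left ha2l (abs_nonneg _)
    have h3 : |c| = (|c| * (β / 2)) * (2 * b) := by
      have : (|c| * (β / 2)) * (2 * b) = |c| * (b * β) := by ring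
      rw [this, hbβ, mul_one]
    rw [h3]
    calc (|c| * (β / 2)) * (2 * b) ≤ (5 * b ^ 10) * (2 * b) :=
          mul_le_mul_of_nonneg_right (h2.trans ha3u) (by positivity)
      _ = 10 * b ^ 11 := by ring
  refine ⟨a1, a2, c, ?_⟩
  intro t u e ht he hxt hxt' hyu hyu' hE
  have hlam3 : lam ^ 3 ≤ lam ^ 2 := pow_le_pow_of_le_one hl.le hl1 (by norm_num)
  have hlam3' : lam ^ 3 ≤ lam := by
    have := pow_le_pow_of_le_one hl.le hl1 (by norm_num : 1 ≤ 3)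
    rwa [pow_one] at this
  have he1 : |e| ≤ 1 := by linarith
  obtain ⟨hu, hv⟩ := hLOC β x y t u e hβ hβ1 hx hx' hy hy' hxt hxt' hyu hyu' he1 hE
  rw [hdiv] at hu hv
  have ht2 : t ^ 2 ≤ lam ^ 2 := by
    rw [← sq_abs]; exact pow_le_pow_left₀ (abs_nonneg _) ht 2
  have hu2 : |u| ≤ 2 * lam * b ^ 2 := by
    refine hu.trans (mul_le_mul_of_nonneg_right ?_ (by positivity))
    linarith
  have huv : u + x ^ 2 / y ^ 2 * t = u - a1 * t := by rw [ha1d]; ring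
  have hv2 : |u - a1 * t| ≤ 8 * lam ^ 2 * b ^ 6 := by
    rw [← huv]
    refine hv.trans (mul_le_mul_of_nonneg_right ?_ (by positivity))
    linarith
  rw [hdiv, hdiv, hdiv]
  refine ⟨?_, ?_, ?_⟩
  · have := mulB ht hv2
    have h2 : lam * (8 * lam ^ 2 * b ^ 6) = 8 * lam ^ 3 * b ^ 6 := by ring
    linarith
  · rw [← sq_abs]
    have := pow_le_pow_left₀ (abs_nonneg _) hv2 2
    have h2 : (8 * lam ^ 2 * b ^ 6) ^ 2 = 64 * lam ^ 4 * b ^ 12 := by ring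
    linarith
  · exact core lam δ x y b a1 a2 a3 c t u e hb hl hl1 hδ hyb hy1 ht he ha1 e1 e2 e3 ec hc hu2 hv2 hE

end Pool.Agent.Helper91.PW
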