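import Pool.Agent.Helper92.PW.St

/-!
# Project PW, module RNK: a quadratic form vanishing on a set of Veronese rank at most five
-/

set_option autoImplicit false

noncomputable section

namespace Pool.Agent.Helper91.PW

open Pool.Agent.Helper92.PW Finset

attribute [local instance] Matrix.seminormedAddCommGroup

/-- the rational Veronese vector -/
def verQ (p : Pt) : Fin 6 → ℚ := fun j => ((ver p j : ℤ) : ℚ)

/-- six vectors with vanishing determinant are linearly dependent -/
theorem rnkDet (w : Fin 6 → Pt) (h : Matrix.det (Matrix.of fun i j : Fin 6 => ver (w i) j) = 0) :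
    ¬ LinearIndependent ℚ (fun i => verQ (w i)) := by
  intro hli
  have h1 : (fun i => verQ (w i)) = (Matrix.of fun i j : Fin 6 => ((ver (w i) j : ℤ) : ℚ)).row := by
    funext i j
    rfl
  rw [h1, Matrix.linearIndependent_rows_iff_isUnit, Matrix.isUnit_iff_isUnit_det] at hli
  have h2 : (Matrix.of fun i j : Fin 6 => ((ver (w i) j : ℤ) : ℚ)).det =
      ((Matrix.det (Matrix.of fun i j : Fin 6 => ver (w i) j) : ℤ) : ℚ) := by
    exact (Int.cast_det (Matrix.of fun i j : Fin 6 => ver (w i) j)).symm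
  rw [h2, h] at hli
  simp at hli

/-- Siegel's lemma for at most five rows and six columns -/
theorem rnkSiegel {κ : Type} [Fintype κ] (M : ℝ) (hM : 1 ≤ M) (hc : Fintype.card κ ≤ 5)
    (A : Matrix κ (Fin 6) ℤ) (hA : ∀ i j, |(A i j : ℝ)| ≤ M ^ 2) :
    ∃ Q : Fin 6 → ℤ, Q ≠ 0 ∧ (∀ j, |(Q j : ℝ)| ≤ (6 * M ^ 2) ^ 5) ∧ ∀ i, ∑ j, A i j * Q j = 0 := by
  have hM2 : 1 ≤ M ^ 2 := one_le_pow₀ hM
  have hb1 : 1 ≤ 6 * M ^ 2 := by linarith
  rcases Nat.eq_zero_or_pos (Fintype.card κ) with h0 | h0
  · refine ⟨fun _ => 1, ?_, ?_, ?_⟩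
    · intro h
      have := congrFun h 0
      simp at this
    · intro j
      simp only [Int.cast_one, abs_one]
      exact one_le_pow₀ hb1
    · intro i
      exact absurd (Fintype.card_eq_zero_iff.mp h0) (fun h => h.elim i)
  · have hlt : Fintype.card κ < Fintype.card (Fin 6) := by
      rw [Fintype.card_fin]; omega
    obtain ⟨t, ht0, htA, htn⟩ := Int.Matrix.exists_ne_zero_int_vec_norm_le A hlt h0
    refine ⟨t, ht0, ?_, ?_⟩
    · intro j
      have h1 : |(t j : ℝ)| ≤ ‖t‖ := by
        rw [← Int.norm_eq_abs]; exact norm_le_pi_norm t j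
      refine h1.trans (htn.trans ?_)
      have h2 : ‖A‖ ≤ M ^ 2 := by
        rw [Matrix.norm_le_iff (by positivity)]
        intro i j
        rw [Int.norm_eq_abs]; exact hA i j
      have h3 : max 1 ‖A‖ ≤ M ^ 2 := max_le hM2 h2
      have h4 : (1 : ℝ) ≤ max 1 ‖A‖ := le_max_left _ _
      rw [Fintype.card_fin]
      have hk : (1 : ℝ) ≤ Fintype.card κ := by exact_mod_cast h0
      have hk5 : (Fintype.card κ : ℝ) ≤ 5 := by exact_mod_cast hc
      have h6 : (((6 : ℕ) : ℝ)) = 6 := by norm_num
      rw [h6]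
      have he : (Fintype.card κ : ℝ) / (6 - Fintype.card κ) ≤ ((5 : ℕ) : ℝ) := by
        rw [div_le_iff₀ (by linarith)]
        push_cast
        linarith
      calc (6 * max 1 ‖A‖) ^ ((Fintype.card κ : ℝ) / (6 - Fintype.card κ))
          ≤ (6 * max 1 ‖A‖) ^ ((5 : ℕ) : ℝ) :=
            Real.rpow_le_rpow_of_exponent_le (by linarith) he
        _ = (6 * max 1 ‖A‖) ^ 5 := Real.rpow_natCast _ 5
        _ ≤ (6 * M ^ 2) ^ 5 := pow_le_pow_left₀ (by positivity) (by linarith) 5
    · intro i
      have := congrFun htA i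
      simpa [Matrix.mulVec, dotProduct] using this

theorem hRNK : StRNK := by
  intro M T hM hdet hbd
  obtain ⟨κ, a, ha, hspan, hli⟩ := exists_linearIndependent' ℚ (fun p : {p // p ∈ T} => verQ p.1)
  have hfin : Finite κ := Finite.of_injective a ha
  have : Fintype κ := Fintype.ofFinite κ
  have hcard6 : Fintype.card κ ≤ 6 := by
    have := hli.fintype_card_le_finrank
    simpa using this
  have hcard : Fintype.card κ ≤ 5 := by
    by_contra hcon
    have h6 : Fintype.card κ = 6 := by omega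
    have e : Fin 6 ≃ κ := (Fintype.equivFinOfCardEq h6).symm
    have hli2 := hli.comp e e.injective
    exact rnkDet (fun i => (a (e i)).1) (hdet _ (fun i => (a (e i)).2)) hli2
  obtain ⟨Q, hQ0, hQb, hQ⟩ := rnkSiegel M hM hcard (fun i j => ver (a i).1 j)
    (fun i j => hbd _ (a i).2 j)
  refine ⟨Q, hQ0, hQb, ?_⟩
  intro p hp
  have hmem : verQ p ∈ Submodule.span ℚ (Set.range ((fun p : {p // p ∈ T} => verQ p.1) ∘ a)) := by
    rw [hspan]
    exact Submodule.subset_span ⟨⟨p, hp⟩, rfl⟩
  have key : ∑ j, (Q j : ℚ) * verQ p j = 0 := by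
    refine Submodule.span_induction (p := fun x _ => ∑ j, (Q j : ℚ) * x j = 0) ?_ ?_ ?_ ?_ hmem
    · rintro x ⟨i, rfl⟩
      have h := hQ i
      have h2 : ((∑ j, ver (a i).1 j * Q j : ℤ) : ℚ) = 0 := by rw [h]; simp
      rw [Int.cast_sum] at h2
      rw [← h2]
      apply Finset.sum_congr rfl
      intro j _
      simp only [Function.comp, verQ]
      push_cast
      ring
    · simp
    · intro x y _ _ hx hy
      simp only [Pi.add_apply, mul_add, Finset.sum_add_distrib, hx, hy, add_zero]
    · intro c x _ hx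
      have : ∑ j, (Q j : ℚ) * (c • x) j = c * ∑ j, (Q j : ℚ) * x j := by
        rw [Finset.mul_sum]
        apply Finset.sum_congr rfl
        intro j _
        simp only [Pi.smul_apply, smul_eq_mul]
        ring
      rw [this, hx, mul_zero]
  have h3 : ((Qf Q p : ℤ) : ℚ) = 0 := by
    rw [← key]
    unfold Qf verQ
    push_cast
    rfl
  exact_mod_cast h3

end Pool.Agent.Helper91.PW
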